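import Pool.Agent.helper31.RLS.Spec

/-!
# Row DE of project RLS: the first values and the derivatives
-/

set_option autoImplicit false

namespace Pool.Agent.RLS

open Finset

theorem DE_ftc (u c a s : ℝ) (K Φ : ℝ → ℝ) (hK : Continuous K) (ha : 2 ≤ a)
    (hΦ : ∀ t, a ≤ t → t ≤ u → Φ t = c + ∫ x in a..t, K (x - 1) / (x - 1))
    (hs : a < s) (hu : s < u) : HasDerivAt Φ (K (s - 1) / (s - 1)) s := by
  have hc : Continuous (fun x : ℝ => K (x - 1) / max (x - 1) 1) := by
    apply Continuous.div
    · exact hK.comp (continuous_id.sub continuous_const)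
    · exact (continuous_id.sub continuous_const).max continuous_const
    · intro x
      have : (1 : ℝ) ≤ max (x - 1) 1 := le_max_right _ _
      positivity
  have h1 : HasDerivAt (fun t : ℝ => c + ∫ x in a..t, K (x - 1) / max (x - 1) 1)
      (K (s - 1) / max (s - 1) 1) s :=
    (hc.integral_hasStrictDerivAt a s).hasDerivAt.const_add c
  have h2 : max (s - 1) 1 = s - 1 := max_eq_left (by linarith)
  rw [h2] at h1
  refine h1.congr_of_eventuallyEq ?_
  filter_upwards [Ioo_mem_nhds hs hu] with t ht
  rw [hΦ t ht.1.le ht.2.le]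
  congr 1
  apply intervalIntegral.integral_congr
  intro x hx
  rw [Set.uIcc_of_le ht.1.le] at hx
  have h3 : max (x - 1) 1 = x - 1 := max_eq_left (by linarith [hx.1])
  simp only [h3]

theorem DE : DE_stmt := by
  intro u G H hu h
  refine ⟨?_, ?_, ?_⟩
  · intro s h2 h4
    rw [h.hi s h2 (h4.trans hu)]
    have e1 : ∫ t in (2 : ℝ)..s, G (t - 1) / (t - 1) = ∫ t in (2 : ℝ)..s, (t - 1)⁻¹ := by
      apply intervalIntegral.integral_congr
      intro x hx
      rw [Set.uIcc_of_le h2] at hx
      simp only [h.g3 (x - 1) (by linarith [hx.2]), one_div]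
    rw [e1, intervalIntegral.integral_comp_sub_right (fun x : ℝ => x⁻¹) 1,
      integral_inv_of_pos (by norm_num) (by linarith)]
    congr 1
    norm_num
  · intro s h3 hs
    exact DE_ftc u 1 3 s H G h.cH (by norm_num) h.gi h3 hs
  · intro s h3 hs
    refine DE_ftc u 0 2 s G H h.cG le_rfl ?_ h3 hs
    intro t h1 h2
    rw [zero_add]
    exact h.hi t h1 h2

end Pool.Agent.RLS
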